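import Pool.Agent.H31.MKS.Targets
import Pool.Agent.H33.DP.MK

/-!
# Row MKS of the board mks_modules: most scales have a small defect, for a finite net of functions
-/

set_option autoImplicit false

open Finset

namespace Pool.Agent.H8.MKS

open Pool.Agent.H31.DP
open Pool.Agent.H31.DPD
open Pool.Agent.H31.MKS
open Pool.Agent.H28.GS
open Pool.Agent.H24.T2 (Pset)

theorem ddh_nonneg (d : ℕ) (H : ℤ → ℝ) (p M : ℕ) : 0 ≤ DDH d H p M :=
  mul_nonneg (by positivity) (Finset.sum_nonneg fun _ _ => sq_nonneg _)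

/-- `DDH` only depends on the values on `[1, M]`. -/
theorem ddh_congr (d : ℕ) (H H' : ℤ → ℝ) (p M : ℕ)
    (hH : ∀ y : ℤ, 1 ≤ y → y ≤ M → H y = H' y) : DDH d H p M = DDH d H' p M := by
  unfold DDH TTH
  congr 1
  refine Finset.sum_congr rfl fun s _ => ?_
  congr 1
  refine Finset.sum_congr rfl fun y hy => ?_
  unfold IC at hy
  have hv := (Finset.mem_filter.1 hy).2
  congr 1
  unfold GCH
  refine Finset.prod_congr rfl fun I _ => ?_
  exact hH _ (hv I).1 (hv I).2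

/-- The finite net. -/
noncomputable def net (W J L : ℕ) (g : Fin W × Fin (J + 1) → Fin (2 * L + 1)) (r j : ℤ) : ℝ :=
  if h : r.toNat < W ∧ j.toNat < J + 1 then
    (((((g (⟨r.toNat, h.1⟩, ⟨j.toNat, h.2⟩) : ℕ) : ℤ) - (L : ℤ) : ℤ)) : ℝ) / L else 0

theorem net_F (W J L : ℕ) (g : Fin W × Fin (J + 1) → Fin (2 * L + 1)) : NetF L (net W J L g) := by
  intro r j
  unfold net
  split_ifs with h
  · refine ⟨((g (⟨r.toNat, h.1⟩, ⟨j.toNat, h.2⟩) : ℕ) : ℤ) - (L : ℤ), ?_, rfl⟩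
    have := (g (⟨r.toNat, h.1⟩, ⟨j.toNat, h.2⟩)).2
    rw [abs_le]
    constructor <;> omega
  · exact ⟨0, by simp, by simp⟩

theorem net_ex (W J L : ℕ) (hW : 0 < W) (φ : ℤ → ℤ → ℝ) (hφ : NetF L φ) :
    ∃ g : Fin W × Fin (J + 1) → Fin (2 * L + 1), ∀ M : ℕ, 0 < M → ∀ y : ℤ, 1 ≤ y → y ≤ M →
      st W J M φ y = st W J M (net W J L g) y := by
  choose k hk1 hk2 using hφ
  have hb : ∀ q : Fin W × Fin (J + 1),
      (k ((q.1 : ℕ) : ℤ) ((q.2 : ℕ) : ℤ) + L).toNat < 2 * L + 1 := by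
    intro q
    have := abs_le.1 (hk1 ((q.1 : ℕ) : ℤ) ((q.2 : ℕ) : ℤ))
    omega
  refine ⟨fun q => ⟨(k ((q.1 : ℕ) : ℤ) ((q.2 : ℕ) : ℤ) + L).toNat, hb q⟩, ?_⟩
  intro M hM y hy1 hy2
  unfold st net
  have hWz : (0 : ℤ) < W := by exact_mod_cast hW
  have hMz : (0 : ℤ) < M := by exact_mod_cast hM
  have h1 : 0 ≤ y % (W : ℤ) := Int.emod_nonneg _ hWz.ne'
  have h2 : y % (W : ℤ) < W := Int.emod_lt_of_pos _ hWz
  have h3 : 0 ≤ (J : ℤ) * y / (M : ℤ) := by
    apply Int.ediv_nonneg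
    · exact mul_nonneg (by positivity) (by omega)
    · exact hMz.le
  have h4 : (J : ℤ) * y / (M : ℤ) < J + 1 := by
    apply Int.ediv_lt_of_lt_mul hMz
    have : (J : ℤ) * y ≤ J * M := mul_le_mul_of_nonneg_left hy2 (by positivity)
    nlinarith
  have hc : (y % (W : ℤ)).toNat < W ∧ ((J : ℤ) * y / (M : ℤ)).toNat < J + 1 := by
    constructor <;> omega
  rw [dif_pos hc, hk2]
  have e1 : (((y % (W : ℤ)).toNat : ℕ) : ℤ) = y % (W : ℤ) := Int.toNat_of_nonneg h1
  have e2 : ((((J : ℤ) * y / (M : ℤ)).toNat : ℕ) : ℤ) = (J : ℤ) * y / (M : ℤ) :=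
    Int.toNat_of_nonneg h3
  simp only [e1, e2]
  have h5 := abs_le.1 (hk1 (y % (W : ℤ)) ((J : ℤ) * y / (M : ℤ)))
  have e3 : (((k (y % (W : ℤ)) ((J : ℤ) * y / (M : ℤ)) + L).toNat : ℕ) : ℤ) - (L : ℤ) =
      k (y % (W : ℤ)) ((J : ℤ) * y / (M : ℤ)) := by
    rw [Int.toNat_of_nonneg (by omega)]
    ring
  rw [e3]

open Classical in
theorem sum_bU_le {G : Type} (T : Finset G) (F : G → Finset ℕ) (f : ℕ → ℝ) (hf : ∀ M, 0 ≤ f M) :
    ∑ M ∈ T.biUnion F, f M ≤ ∑ g ∈ T, ∑ M ∈ F g, f M := by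
  induction T using Finset.induction_on with
  | empty => simp
  | insert a T ha ih =>
    rw [Finset.biUnion_insert, Finset.sum_insert ha]
    have h1 := Finset.sum_union_inter (s₁ := F a) (s₂ := T.biUnion F) (f := f)
    have h2 : 0 ≤ ∑ M ∈ F a ∩ T.biUnion F, f M := Finset.sum_nonneg fun M _ => hf M
    linarith

open Classical in
theorem pf_MKS (hIDS : K_IDS) (hDCS : K_DCS) : Pool.Agent.H28.GS.T_MKS := by
  obtain ⟨c₀, hc₀, hDCS⟩ := hDCS
  refine ⟨c₀, hc₀, ?_⟩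
  intro d l h W J L θ ρ m₀ hW hJ hL hθ hρ
  set G := Fin W × Fin (J + 1) → Fin (2 * L + 1) with hG
  set n : ℝ := (Fintype.card G : ℝ) with hn
  have hnpos : 0 < n := by
    rw [hn]
    have : 0 < Fintype.card G := Fintype.card_pos
    exact_mod_cast this
  obtain ⟨m₁, K, hK⟩ := hDCS d l h W J L (θ * ρ / (4 * n)) (max m₀ 1) hW hL (by positivity)
  refine ⟨m₁, max K 3, ?_⟩
  intro x y hx hxy
  have hKx : K * x ≤ y := (Nat.mul_le_mul_right x (le_max_left K 3)).trans hxy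
  have h3x : 3 * x ≤ y := (Nat.mul_le_mul_right x (le_max_right K 3)).trans hxy
  obtain ⟨m, hm0, hm1, hcard, hS⟩ := hK x y hx hKx
  refine ⟨m, (le_max_left _ _).trans hm0, hm1, hcard, ?_⟩
  have hm : 1 ≤ m := (le_max_right _ _).trans hm0
  have hmR : (0 : ℝ) < m := by exact_mod_cast hm
  have hc : (0 : ℝ) < ((Pset 1 m).card : ℝ) := lt_of_lt_of_le (by positivity) hcard
  set c : ℝ := ((Pset 1 m).card : ℝ) with hcdef
  have hxR : (0 : ℝ) < x := by exact_mod_cast hx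
  have hx1 : (1 : ℝ) ≤ x := by exact_mod_cast hx
  have hyx : (3 : ℝ) ≤ (y : ℝ) / x := by
    rw [le_div_iff₀ hxR]
    exact_mod_cast h3x
  have hlog : 1 ≤ Real.log ((y : ℝ) / x) := by
    rw [Real.le_log_iff_exp_le (by linarith)]
    exact (Real.exp_one_lt_d9.le.trans (by norm_num)).trans hyx
  set S : ℝ := ∑ M ∈ Finset.Icc x y, (1 / (M : ℝ)) with hSdef
  have hSle : S ≤ 2 * Real.log ((y : ℝ) / x) := by
    obtain ⟨k, rfl⟩ := Nat.exists_eq_add_of_le (show x ≤ y by omega)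
    have h1 := Pool.Agent.H33.DP.mk_harm x hx k
    have h2 : 1 / (x : ℝ) ≤ 1 := by
      rw [div_le_one hxR]
      exact hx1
    linarith
  have hS0 : 0 < S := by
    refine Finset.sum_pos (fun M hM => ?_) ⟨x, Finset.mem_Icc.2 ⟨le_rfl, by omega⟩⟩
    have : (0 : ℝ) < M := by exact_mod_cast (lt_of_lt_of_le hx (Finset.mem_Icc.1 hM).1)
    positivity
  have hpP : ∀ p ∈ Pset 1 m, 0 < p := fun p hp => by
    unfold Pset at hp
    exact (Finset.mem_filter.1 hp).2.1.pos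
  -- one function of the net
  have hone : ∀ g : G, ∑ M ∈ (Finset.Icc x y).filter (fun M : ℕ =>
      θ * c * (M : ℝ) ^ (d + 2) <
        ∑ p ∈ Pset 1 m, DDH d (Hs h (st W J M (net W J L g)) p) p M), (1 / (M : ℝ)) ≤
      ρ / n * Real.log ((y : ℝ) / x) := by
    intro g
    have hSg := hS (net W J L g) (net_F W J L g)
    have hsum : ∑ p ∈ Pset 1 m, ∑ κ : Ix d J, avR d J κ x y (dcj h W (net W J L g) κ p) =
        (∑ M ∈ Finset.Icc x y, (1 / (M : ℝ)) *
          ((∑ p ∈ Pset 1 m, DDH d (Hs h (st W J M (net W J L g)) p) p M) /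
            (M : ℝ) ^ (d + 2))) / S := by
      unfold avR
      have e1 : ∀ p ∈ Pset 1 m, ∑ κ : Ix d J, (∑ M ∈ Finset.Icc x y, (1 / (M : ℝ)) *
          ((∑ ω ∈ Rg d J M κ, dcj h W (net W J L g) κ p ω) / (M : ℝ) ^ (d + 2))) / S =
          (∑ M ∈ Finset.Icc x y, (1 / (M : ℝ)) *
            (DDH d (Hs h (st W J M (net W J L g)) p) p M / (M : ℝ) ^ (d + 2))) / S := by
        intro p hp
        rw [← Finset.sum_div, Finset.sum_comm]
        congr 1
        refine Finset.sum_congr rfl fun M hM => ?_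
        have hM0 : 0 < M := lt_of_lt_of_le hx (Finset.mem_Icc.1 hM).1
        rw [← Finset.mul_sum, ← Finset.sum_div]
        congr 2
        exact hIDS d l h W J (net W J L g) p M (hpP p hp) hM0
      rw [Finset.sum_congr rfl e1, ← Finset.sum_div, Finset.sum_comm]
      congr 1
      refine Finset.sum_congr rfl fun M _ => ?_
      rw [← Finset.mul_sum, ← Finset.sum_div]
    rw [hsum, div_le_iff₀ hS0] at hSg
    set bad := (Finset.Icc x y).filter (fun M : ℕ =>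
      θ * c * (M : ℝ) ^ (d + 2) <
        ∑ p ∈ Pset 1 m, DDH d (Hs h (st W J M (net W J L g)) p) p M) with hbad
    have hDn : ∀ M : ℕ, 0 ≤ ∑ p ∈ Pset 1 m, DDH d (Hs h (st W J M (net W J L g)) p) p M :=
      fun M => Finset.sum_nonneg fun p _ => ddh_nonneg d _ p M
    have h1 : (∑ M ∈ bad, (1 / (M : ℝ))) * (θ * c) ≤
        ∑ M ∈ Finset.Icc x y, (1 / (M : ℝ)) *
          ((∑ p ∈ Pset 1 m, DDH d (Hs h (st W J M (net W J L g)) p) p M) /
            (M : ℝ) ^ (d + 2)) := by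
      rw [Finset.sum_mul]
      refine (Finset.sum_le_sum (fun M hM => ?_)).trans
        (Finset.sum_le_sum_of_subset_of_nonneg (Finset.filter_subset _ _) (fun M _ _ => ?_))
      · rw [hbad, Finset.mem_filter, Finset.mem_Icc] at hM
        obtain ⟨⟨hM1, hM2⟩, hM3⟩ := hM
        have hM0 : 0 < M := lt_of_lt_of_le hx hM1
        have hMR : (0 : ℝ) < M := by exact_mod_cast hM0
        refine mul_le_mul_of_nonneg_left ?_ (by positivity)
        rw [le_div_iff₀ (by positivity)]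
        exact hM3.le
      · exact mul_nonneg (by positivity) (div_nonneg (hDn M) (by positivity))
    have h2 := h1.trans hSg
    have hθc : 0 < θ * c := by positivity
    have h3 : θ * ρ / (4 * n) * c * S ≤ (ρ / n * Real.log ((y : ℝ) / x)) * (θ * c) := by
      have h4 : θ * ρ / (4 * n) * c * S ≤
          θ * ρ / (4 * n) * c * (2 * Real.log ((y : ℝ) / x)) :=
        mul_le_mul_of_nonneg_left hSle (by positivity)
      have h5 : θ * ρ / (4 * n) * c * (2 * Real.log ((y : ℝ) / x)) =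
          (ρ / n * Real.log ((y : ℝ) / x)) * (θ * c) / 2 := by
        field_simp
        ring
      have h6 : 0 ≤ (ρ / n * Real.log ((y : ℝ) / x)) * (θ * c) := by positivity
      linarith
    exact le_of_mul_le_mul_right (h2.trans h3) hθc
  -- the union over the net
  have hsub : (Finset.Icc x y).filter (fun M : ℕ => ∃ φ : ℤ → ℤ → ℝ, NetF L φ ∧
      θ * c * (M : ℝ) ^ (d + 2) < ∑ p ∈ Pset 1 m, DDH d (Hs h (st W J M φ) p) p M) ⊆
      (Finset.univ : Finset G).biUnion (fun g => (Finset.Icc x y).filter (fun M : ℕ =>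
        θ * c * (M : ℝ) ^ (d + 2) <
          ∑ p ∈ Pset 1 m, DDH d (Hs h (st W J M (net W J L g)) p) p M)) := by
    intro M hM
    rw [Finset.mem_filter] at hM
    obtain ⟨hM1, φ, hφ, hM2⟩ := hM
    obtain ⟨g, hg⟩ := net_ex W J L hW φ hφ
    rw [Finset.mem_biUnion]
    refine ⟨g, Finset.mem_univ _, ?_⟩
    rw [Finset.mem_filter]
    refine ⟨hM1, ?_⟩
    have hM0 : 0 < M := lt_of_lt_of_le hx (Finset.mem_Icc.1 hM1).1
    refine hM2.trans_eq (Finset.sum_congr rfl fun p _ => ddh_congr d _ _ p M ?_)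
    intro z hz1 hz2
    unfold Hs
    rw [hg M hM0 z hz1 hz2]
  calc _ ≤ ∑ M ∈ (Finset.univ : Finset G).biUnion (fun g => (Finset.Icc x y).filter
        (fun M : ℕ => θ * c * (M : ℝ) ^ (d + 2) <
          ∑ p ∈ Pset 1 m, DDH d (Hs h (st W J M (net W J L g)) p) p M)), (1 / (M : ℝ)) :=
        Finset.sum_le_sum_of_subset_of_nonneg hsub (fun M _ _ => by positivity)
    _ ≤ ∑ g : G, ∑ M ∈ (Finset.Icc x y).filter (fun M : ℕ =>
        θ * c * (M : ℝ) ^ (d + 2) <
          ∑ p ∈ Pset 1 m, DDH d (Hs h (st W J M (net W J L g)) p) p M), (1 / (M : ℝ)) :=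
        sum_bU_le _ _ _ (fun M => by positivity)
    _ ≤ ∑ _g : G, ρ / n * Real.log ((y : ℝ) / x) := Finset.sum_le_sum fun g _ => hone g
    _ = ρ * Real.log ((y : ℝ) / x) := by
        rw [Finset.sum_const, Finset.card_univ, nsmul_eq_mul, ← hn]
        field_simp

end Pool.Agent.H8.MKS
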